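import Pool.Agent.K1H27.TP.Stm

set_option autoImplicit false

namespace Pool.Agent.K1H33.TP

open MeasureTheory
open Pool.Agent.K1H27.TP

theorem ii_of_bdd (g : ℝ → ℝ) (hg : Measurable g) (C : ℝ) (hC : ∀ x, |g x| ≤ C) (u v : ℝ) :
    IntervalIntegrable g volume u v := by
  have h1 : IntervalIntegrable (fun _ : ℝ => C) volume u v := intervalIntegrable_const
  refine h1.mono_fun hg.aestronglyMeasurable ?_
  refine Filter.Eventually.of_forall ?_
  intro x
  simp only [Real.norm_eq_abs]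
  exact le_trans (hC x) (le_abs_self C)

theorem posII (ψ : ℝ → ℝ) (hψ : Measurable ψ) (hb : ∀ x, |ψ x| ≤ 1) (u v : ℝ) :
    IntervalIntegrable (fun s => max (ψ s) 0) volume u v := by
  refine ii_of_bdd _ (hψ.max measurable_const) 1 ?_ u v
  intro x
  have h1 := abs_le.1 (hb x)
  rw [abs_of_nonneg (le_max_right _ _)]
  exact max_le h1.2 zero_le_one

theorem negII (ψ : ℝ → ℝ) (hψ : Measurable ψ) (hb : ∀ x, |ψ x| ≤ 1) (u v : ℝ) :
    IntervalIntegrable (fun s => max (-ψ s) 0) volume u v := by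
  refine ii_of_bdd _ (hψ.neg.max measurable_const) 1 ?_ u v
  intro x
  have h1 := abs_le.1 (hb x)
  rw [abs_of_nonneg (le_max_right _ _)]
  exact max_le (by show -ψ x ≤ 1; linarith [h1.1]) zero_le_one

theorem pm_sub_nm (ψ : ℝ → ℝ) (hψ : Measurable ψ) (hb : ∀ x, |ψ x| ≤ 1) (u v : ℝ) :
    pm ψ u v - nm ψ u v = ∫ s in u..v, ψ s := by
  unfold pm nm
  rw [← intervalIntegral.integral_sub (posII ψ hψ hb u v) (negII ψ hψ hb u v)]
  apply intervalIntegral.integral_congr
  intro x _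
  rcases le_total 0 (ψ x) with h | h
  · simp only [max_eq_left h, max_eq_right (by linarith : -ψ x ≤ 0)]; ring
  · simp only [max_eq_right h, max_eq_left (by linarith : (0:ℝ) ≤ -ψ x)]; ring

theorem pm_add_nm (ψ : ℝ → ℝ) (hψ : Measurable ψ) (hb : ∀ x, |ψ x| ≤ 1) (u v : ℝ) :
    pm ψ u v + nm ψ u v = ∫ s in u..v, |ψ s| := by
  unfold pm nm
  rw [← intervalIntegral.integral_add (posII ψ hψ hb u v) (negII ψ hψ hb u v)]
  apply intervalIntegral.integral_congr
  intro x _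
  rcases le_total 0 (ψ x) with h | h
  · simp only [max_eq_left h, max_eq_right (by linarith : -ψ x ≤ 0), abs_of_nonneg h]; ring
  · simp only [max_eq_right h, max_eq_left (by linarith : (0:ℝ) ≤ -ψ x), abs_of_nonpos h]; ring

theorem absII (ψ : ℝ → ℝ) (hψ : Measurable ψ) (hb : ∀ x, |ψ x| ≤ 1) (u v : ℝ) :
    IntervalIntegrable (fun s => |ψ s|) volume u v := by
  refine ii_of_bdd _ (hψ.norm) 1 ?_ u v
  intro x
  show |(|ψ x|)| ≤ 1
  rw [abs_abs]
  exact hb x

theorem pm_add_nm_le (ψ : ℝ → ℝ) (hψ : Measurable ψ) (hb : ∀ x, |ψ x| ≤ 1) (u v : ℝ)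
    (huv : u ≤ v) : pm ψ u v + nm ψ u v ≤ v - u := by
  rw [pm_add_nm ψ hψ hb]
  have h := intervalIntegral.integral_mono_on huv (absII ψ hψ hb u v)
    (intervalIntegrable_const (c := (1:ℝ))) (fun x _ => hb x)
  simpa using h

theorem pm_nonneg (ψ : ℝ → ℝ) (u v : ℝ) (huv : u ≤ v) : 0 ≤ pm ψ u v :=
  intervalIntegral.integral_nonneg huv (fun x _ => le_max_right _ _)

theorem nm_nonneg (ψ : ℝ → ℝ) (u v : ℝ) (huv : u ≤ v) : 0 ≤ nm ψ u v :=
  intervalIntegral.integral_nonneg huv (fun x _ => le_max_right _ _)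

/-- integration by parts for the distribution function -/
theorem int_F (a b : ℝ) (M : ℝ → ℝ) (hM : Continuous M) (h1 : ∫ x in a..b, M x = 1) :
    ∫ t in a..b, (∫ s in a..t, M s) = b - ∫ x in a..b, M x * x := by
  have hd : ∀ x : ℝ, HasDerivAt (fun t => ∫ s in a..t, M s) (M x) x := fun x =>
    intervalIntegral.integral_hasDerivAt_right (hM.intervalIntegrable _ _)
      (hM.stronglyMeasurableAtFilter _ _) hM.continuousAt
  have h := intervalIntegral.integral_mul_deriv_eq_deriv_mul (a := a) (b := b)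
    (u := fun t => ∫ s in a..t, M s) (v := fun t => t) (u' := M) (v' := fun _ => (1:ℝ))
    (fun x _ => hd x) (fun x _ => hasDerivAt_id x) (hM.intervalIntegrable _ _)
    intervalIntegrable_const
  simp only [mul_one, intervalIntegral.integral_same, zero_mul, sub_zero, h1, one_mul] at h
  exact h

/-- final assembly with a zero `z0` of `G` -/
theorem final (hG : S_ALG) (a b τ z : ℝ) (M ψ : ℝ → ℝ) (haz : a ≤ z) (hzb : z ≤ b)
    (hτ : 0 ≤ τ) (hM : Continuous M)
    (hM0 : ∀ x ∈ Set.Icc a b, 0 ≤ M x) (hM1 : ∫ x in a..b, M x = 1)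
    (hψ : Measurable ψ) (hb : ∀ x, |ψ x| ≤ 1) (hT : 0 ≤ ∫ x in a..b, ψ x)
    (hz : (∫ x in a..b, ψ x) * (∫ x in a..z, M x) = ∫ x in a..z, ψ x)
    (hL : ∫ t in a..z, |(∫ s in a..t, ψ s) - (∫ x in a..b, ψ x) * (∫ x in a..t, M x)| ≤
      U ψ a z - ∫ t in a..z, (∫ x in a..b, ψ x) * (∫ x in a..t, M x))
    (hR : ∫ t in z..b, |(∫ s in t..b, ψ s) - (∫ x in a..b, ψ x) * (∫ x in t..b, M x)| ≤
      U ψ z b - ∫ t in z..b, (∫ x in a..b, ψ x) * (∫ x in t..b, M x)) :
    (∫ t in a..b, |(∫ x in a..b, ψ x) * (∫ x in a..t, M x) - ∫ x in a..t, ψ x|)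
    - τ * (∫ x in a..b, |ψ x|) ≤
    chi τ ((∫ x in a..b, M x * x) - a) + chi τ (b - ∫ x in a..b, M x * x) := by
  have hψI : ∀ u v : ℝ, IntervalIntegrable ψ volume u v := fun u v => ii_of_bdd ψ hψ 1 hb u v
  have hMI : ∀ u v : ℝ, IntervalIntegrable M volume u v := fun u v => hM.intervalIntegrable u v
  have hFc : Continuous (fun t => ∫ x in a..t, M x) :=
    intervalIntegral.continuous_primitive hMI a
  have hPc : Continuous (fun t => ∫ x in a..t, ψ x) :=
    intervalIntegral.continuous_primitive hψI a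
  have eM : ∀ t, (∫ x in t..b, M x) = 1 - ∫ x in a..t, M x := by
    intro t
    have := intervalIntegral.integral_add_adjacent_intervals (hMI a t) (hMI t b)
    linarith
  have eψ : ∀ t, (∫ x in t..b, ψ x) = (∫ x in a..b, ψ x) - ∫ x in a..t, ψ x := by
    intro t
    have := intervalIntegral.integral_add_adjacent_intervals (hψI a t) (hψI t b)
    linarith
  set T := ∫ x in a..b, ψ x with hTd
  have hF0 : ∀ t ∈ Set.Icc a b, 0 ≤ ∫ x in a..t, M x := by
    intro t ht
    exact intervalIntegral.integral_nonneg ht.1 (fun x hx => hM0 x ⟨hx.1, le_trans hx.2 ht.2⟩)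
  have hF1 : ∀ t ∈ Set.Icc a b, 0 ≤ ∫ x in t..b, M x := by
    intro t ht
    exact intervalIntegral.integral_nonneg ht.2 (fun x hx => hM0 x ⟨le_trans ht.1 hx.1, hx.2⟩)
  set p1 := ∫ t in a..z, (∫ x in a..t, M x) with hp1
  set p2 := ∫ t in z..b, (∫ x in t..b, M x) with hp2
  have hp1n : 0 ≤ p1 :=
    intervalIntegral.integral_nonneg haz (fun x hx => hF0 x ⟨hx.1, le_trans hx.2 hzb⟩)
  have hp2n : 0 ≤ p2 :=
    intervalIntegral.integral_nonneg hzb (fun x hx => hF1 x ⟨le_trans haz hx.1, hx.2⟩)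
  have hzm : z ∈ Set.Icc a b := ⟨haz, hzb⟩
  have hf0 := hF0 z hzm
  have hf1 := hF1 z hzm
  rw [eM z] at hf1
  have key := hG (z - a) (b - z) p1 p2 (∫ x in a..z, M x) T (pm ψ a z) (nm ψ a z)
    (pm ψ z b) (nm ψ z b) τ (by linarith) (by linarith) hp1n hp2n hf0 (by linarith) hT
    (pm_nonneg ψ a z haz) (nm_nonneg ψ a z haz) (pm_nonneg ψ z b hzb) (nm_nonneg ψ z b hzb) hτ
    (pm_add_nm_le ψ hψ hb a z haz) (pm_add_nm_le ψ hψ hb z b hzb)
    (by rw [pm_sub_nm ψ hψ hb, ← hz]; ring)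
    (by rw [pm_sub_nm ψ hψ hb, eψ z, ← hz]; ring)
  -- the integral of F
  have hIF := int_F a b M hM hM1
  have hsplit := intervalIntegral.integral_add_adjacent_intervals
    (hFc.intervalIntegrable (μ := volume) a z) (hFc.intervalIntegrable (μ := volume) z b)
  have hp2' : p2 = (b - z) - ∫ t in z..b, (∫ x in a..t, M x) := by
    rw [hp2]
    have : (∫ t in z..b, (∫ x in t..b, M x)) = ∫ t in z..b, (1 - ∫ x in a..t, M x) := by
      apply intervalIntegral.integral_congr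
      intro t _
      exact eM t
    rw [this, intervalIntegral.integral_sub intervalIntegrable_const
      (hFc.intervalIntegrable (μ := volume) z b)]
    simp
  have e1 : z - a - p1 + p2 = (∫ x in a..b, M x * x) - a := by
    linarith
  have e2 : b - z + p1 - p2 = b - ∫ x in a..b, M x * x := by
    linarith
  rw [e1, e2] at key
  -- the abs integral of psi
  have hab : ∫ x in a..b, |ψ x| = pm ψ a z + nm ψ a z + (pm ψ z b + nm ψ z b) := by
    rw [pm_add_nm ψ hψ hb, pm_add_nm ψ hψ hb]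
    exact (intervalIntegral.integral_add_adjacent_intervals (absII ψ hψ hb a z)
      (absII ψ hψ hb z b)).symm
  -- the left side
  have hGc : Continuous (fun t => |T * (∫ x in a..t, M x) - ∫ x in a..t, ψ x|) :=
    ((continuous_const.mul hFc).sub hPc).abs
  have hs2 := intervalIntegral.integral_add_adjacent_intervals
    (hGc.intervalIntegrable (μ := volume) a z) (hGc.intervalIntegrable (μ := volume) z b)
  have hL1 : ∫ t in a..z, |T * (∫ x in a..t, M x) - ∫ x in a..t, ψ x| =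
      ∫ t in a..z, |(∫ s in a..t, ψ s) - T * (∫ x in a..t, M x)| := by
    apply intervalIntegral.integral_congr
    intro t _
    exact abs_sub_comm _ _
  have hR1 : ∫ t in z..b, |T * (∫ x in a..t, M x) - ∫ x in a..t, ψ x| =
      ∫ t in z..b, |(∫ s in t..b, ψ s) - T * (∫ x in t..b, M x)| := by
    apply intervalIntegral.integral_congr
    intro t _
    show |_| = |_|
    rw [eM t, eψ t]
    apply congrArg
    ring
  rw [intervalIntegral.integral_const_mul] at hL hR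
  have hU1 : U ψ a z = pm ψ a z * (z - a) - (pm ψ a z ^ 2 + nm ψ a z ^ 2) / 2 := rfl
  have hU2 : U ψ z b = pm ψ z b * (b - z) - (pm ψ z b ^ 2 + nm ψ z b ^ 2) / 2 := rfl
  rw [hab, ← hs2, hL1, hR1]
  rw [hU1] at hL
  rw [hU2] at hR
  have h3 : T * (p1 + p2) = T * p1 + T * p2 := by ring
  have h4 : τ * (pm ψ a z + nm ψ a z + (pm ψ z b + nm ψ z b)) =
    τ * (pm ψ a z + nm ψ a z + pm ψ z b + nm ψ z b) := by ring
  rw [h4]
  linarith

/-- The intended form of `S_DUAL` (the first integral in parentheses). -/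
def S_DUALc : Prop := ∀ (a b τ : ℝ) (M ψ : ℝ → ℝ), a < b → 0 ≤ τ → Continuous M →
  (∀ x ∈ Set.Icc a b, 0 ≤ M x) → ∫ x in a..b, M x = 1 →
  (∀ s1 s2 s3, a ≤ s1 → s1 < s2 → s2 < s3 → s3 ≤ b → min (M s1) (M s3) ≤ M s2) →
  Measurable ψ → (∀ x, |ψ x| ≤ 1) → 0 ≤ ∫ x in a..b, ψ x →
  (∫ t in a..b, |(∫ x in a..b, ψ x) * (∫ x in a..t, M x) - ∫ x in a..t, ψ x|)
    - τ * (∫ x in a..b, |ψ x|) ≤
    chi τ ((∫ x in a..b, M x * x) - a) + chi τ (b - ∫ x in a..b, M x * x)

theorem t_DUAL (h2 : S_LIN2) (h3 : S_LIN2R) (hG : S_ALG) (hC : S_CHORD) : S_DUALc := by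
  intro a b τ M ψ hab hτ hM hM0 hM1 hU hψ hb hT
  have hψI : ∀ u v : ℝ, IntervalIntegrable ψ volume u v := fun u v => ii_of_bdd ψ hψ 1 hb u v
  have hMI : ∀ u v : ℝ, IntervalIntegrable M volume u v := fun u v => hM.intervalIntegrable u v
  have hFc : Continuous (fun t => ∫ x in a..t, M x) :=
    intervalIntegral.continuous_primitive hMI a
  have hPc : Continuous (fun t => ∫ x in a..t, ψ x) :=
    intervalIntegral.continuous_primitive hψI a
  have eM : ∀ t, (∫ x in t..b, M x) = 1 - ∫ x in a..t, M x := by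
    intro t
    have := intervalIntegral.integral_add_adjacent_intervals (hMI a t) (hMI t b)
    linarith
  have eψ : ∀ t, (∫ x in t..b, ψ x) = (∫ x in a..b, ψ x) - ∫ x in a..t, ψ x := by
    intro t
    have := intervalIntegral.integral_add_adjacent_intervals (hψI a t) (hψI t b)
    linarith
  obtain ⟨c, hc, hc1, hc2⟩ := hC a b M hab hM hM0 hU
  obtain ⟨T, hTd⟩ : ∃ T, T = ∫ x in a..b, ψ x := ⟨_, rfl⟩
  have hT0 : 0 ≤ T := by rw [hTd]; exact hT
  have hGc : Continuous (fun t => T * (∫ x in a..t, M x) - ∫ x in a..t, ψ x) :=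
    (continuous_const.mul hFc).sub hPc
  -- last zero in [a,c]
  have hcl : IsClosed {t : ℝ | T * (∫ x in a..t, M x) - ∫ x in a..t, ψ x = 0} :=
    isClosed_eq hGc continuous_const
  have hk1 : IsCompact (Set.Icc a c ∩ {t : ℝ | T * (∫ x in a..t, M x) - ∫ x in a..t, ψ x = 0}) :=
    isCompact_Icc.inter_right hcl
  have hk2 : IsCompact (Set.Icc c b ∩ {t : ℝ | T * (∫ x in a..t, M x) - ∫ x in a..t, ψ x = 0}) :=
    isCompact_Icc.inter_right hcl
  obtain ⟨α, hα, hαm⟩ := hk1.exists_isGreatest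
    ⟨a, ⟨⟨le_refl a, hc.1⟩, by simp⟩⟩
  obtain ⟨β, hβ, hβm⟩ := hk2.exists_isLeast
    ⟨b, ⟨⟨hc.2, le_refl b⟩, by
      show T * (∫ x in a..b, M x) - ∫ x in a..b, ψ x = 0
      rw [hM1, ← hTd]; ring⟩⟩
  have hα0 : T * (∫ x in a..α, M x) = ∫ x in a..α, ψ x := sub_eq_zero.1 hα.2
  have hβ0 : T * (∫ x in a..β, M x) = ∫ x in a..β, ψ x := sub_eq_zero.1 hβ.2
  have haα : a ≤ α := hα.1.1
  have hαc : α ≤ c := hα.1.2
  have hcβ : c ≤ β := hβ.1.1
  have hβb : β ≤ b := hβ.1.2
  have hαβ : α ≤ β := le_trans hαc hcβ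
  -- chord inequalities
  have hch1 : ∀ t ∈ Set.Icc a α,
      (T * ∫ x in a..t, M x) * (α - a) ≤ (t - a) * ∫ s in a..α, ψ s := by
    intro t ht
    have h := hc1 α ⟨haα, hαc⟩ t ht
    rw [← hα0]
    have := mul_le_mul_of_nonneg_left h hT0
    linarith [this]
  have hch2 : ∀ t ∈ Set.Icc β b,
      (T * ∫ x in t..b, M x) * (b - β) ≤ (b - t) * ∫ s in β..b, ψ s := by
    intro t ht
    have h := hc2 β ⟨hcβ, hβb⟩ t ht
    have e : ∫ s in β..b, ψ s = T * ∫ x in β..b, M x := by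
      rw [eψ β, eM β, ← hTd, ← hβ0]; ring
    rw [e]
    have := mul_le_mul_of_nonneg_left h hT0
    linarith [this]
  have hKc1 : ∀ z, ContinuousOn (fun t => T * ∫ x in a..t, M x) (Set.Icc a z) := fun z =>
    (continuous_const.mul hFc).continuousOn
  have hKc2 : ∀ z, ContinuousOn (fun t => T * ∫ x in t..b, M x) (Set.Icc z b) := by
    intro z
    have : (fun t => T * ∫ x in t..b, M x) = fun t => T * (1 - ∫ x in a..t, M x) := by
      funext t
      rw [eM t]
    rw [this]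
    exact (continuous_const.mul (continuous_const.sub hFc)).continuousOn
  -- sign
  have hsign : (∀ t ∈ Set.Icc α β, 0 ≤ T * (∫ x in a..t, M x) - ∫ x in a..t, ψ x) ∨
      (∀ t ∈ Set.Icc α β, T * (∫ x in a..t, M x) - ∫ x in a..t, ψ x ≤ 0) := by
    by_contra hcon
    push Not at hcon
    obtain ⟨⟨t1, ht1, hn1⟩, ⟨t2, ht2, hn2⟩⟩ := hcon
    have hiv := intermediate_value_uIcc (a := t1) (b := t2)
      (f := fun t => T * (∫ x in a..t, M x) - ∫ x in a..t, ψ x) hGc.continuousOn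
    have hmem : (0:ℝ) ∈ Set.uIcc ((fun t => T * (∫ x in a..t, M x) - ∫ x in a..t, ψ x) t1)
        ((fun t => T * (∫ x in a..t, M x) - ∫ x in a..t, ψ x) t2) :=
      Set.mem_uIcc.2 (Or.inl ⟨hn1.le, hn2.le⟩)
    obtain ⟨t3, ht3, h30⟩ := hiv hmem
    have h30' : T * (∫ x in a..t3, M x) - ∫ x in a..t3, ψ x = 0 := h30
    have hne1 : t3 ≠ t1 := by
      intro h; rw [h] at h30'; linarith
    have hne2 : t3 ≠ t2 := by
      intro h; rw [h] at h30'; linarith
    have hlt : α < t3 ∧ t3 < β := by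
      rcases Set.mem_uIcc.1 ht3 with h | h
      · exact ⟨lt_of_le_of_lt ht1.1 (lt_of_le_of_ne h.1 (Ne.symm hne1)),
          lt_of_lt_of_le (lt_of_le_of_ne h.2 hne2) ht2.2⟩
      · exact ⟨lt_of_le_of_lt ht2.1 (lt_of_le_of_ne h.1 (Ne.symm hne2)),
          lt_of_lt_of_le (lt_of_le_of_ne h.2 hne1) ht1.2⟩
    rcases le_total t3 c with h | h
    · have := hαm ⟨⟨le_trans haα hlt.1.le, h⟩, h30'⟩
      linarith [hlt.1]
    · have := hβm ⟨⟨h, le_trans hlt.2.le hβb⟩, h30'⟩
      linarith [hlt.2]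
  rcases hsign with hs | hs
  · -- z0 = alpha
    refine final hG a b τ α M ψ haα (le_trans hαβ hβb) hτ hM hM0 hM1 hψ hb hT ?_ ?_ ?_
    · rw [← hTd]; exact hα0
    · rw [← hTd]
      refine h2 a α α ψ (fun t => T * ∫ x in a..t, M x) haα (le_refl _) hψ hb (hKc1 α) hch1 ?_
      intro t ht
      have : t = α := le_antisymm ht.2 ht.1
      subst this
      exact hα0.le
    · rw [← hTd]
      refine h3 α β b ψ (fun t => T * ∫ x in t..b, M x) hαβ hβb hψ hb (hKc2 α) hch2 ?_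
      intro t ht
      have h := hs t ht
      show T * (∫ x in t..b, M x) ≤ _
      rw [eψ t, eM t, ← hTd]
      linarith
  · refine final hG a b τ β M ψ (le_trans haα hαβ) hβb hτ hM hM0 hM1 hψ hb hT ?_ ?_ ?_
    · rw [← hTd]; exact hβ0
    · rw [← hTd]
      refine h2 a α β ψ (fun t => T * ∫ x in a..t, M x) haα hαβ hψ hb (hKc1 β) hch1 ?_
      intro t ht
      have h := hs t ht
      show T * (∫ x in a..t, M x) ≤ _
      linarith
    · rw [← hTd]
      refine h3 β β b ψ (fun t => T * ∫ x in t..b, M x) (le_refl _) hβb hψ hb (hKc2 β) hch2 ?_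
      intro t ht
      have : t = β := le_antisymm ht.2 ht.1
      subst this
      show T * (∫ x in t..b, M x) ≤ _
      rw [eψ t, eM t, ← hTd]
      linarith

end Pool.Agent.K1H33.TP
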